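import Mathlib
import Pool.Agent.H55.IDCS3

namespace Pool.Agent.Results.MP_cda74c_nt.TwoThree

theorem result : ∀ (I : Type) (a : I → ℤ) (m : I → ℕ), Infinite I → (∀ i, 2 ≤ m i) →
    Function.Injective m → (∀ n : ℤ, 1 ≤ n → ∃! i, n ≡ a i [ZMOD (m i : ℤ)]) →
    HasSum (fun i => (1 : ℝ) / (m i : ℝ)) 1 → ∀ i, ∃ α β : ℕ, m i = 2 ^ α * 3 ^ β :=
  fun _ a m _ hm hinj hcov hsum => Pool.Agent.H55.IDCS.final a m hm hinj hcov hsum

end Pool.Agent.Results.MP_cda74c_nt.TwoThree
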